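import Pool.Agent.Helper784QA.Fin

set_option autoImplicit false

namespace Pool.Agent.Results.MP_f0269b_an.AmalgamNotQWEP

open scoped InnerProductSpace
open Pool.Agent.Helper784QA Pool.Agent.Helper784QW

/-- There are a QWEP finite von Neumann algebra `A` with a faithful normal tracial state and a QWEP von Neumann subalgebra
`B` such that the amalgamated free product of two copies of `A` over `B` is not QWEP. -/
theorem result : ∃ (H : Type) (_ : NormedAddCommGroup H) (_ : InnerProductSpace ℂ H)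
    (_ : CompleteSpace H) (A B : VonNeumannAlgebra H) (ξ : H),
    TopologicalSpace.SeparableSpace H ∧ IsTracial A ξ ∧ (∀ x ∈ B, x ∈ A) ∧
    QWEP (A : Set (H →L[ℂ] H)) ∧ QWEP (B : Set (H →L[ℂ] H)) ∧
    (∃ (L : Type) (_ : NormedAddCommGroup L) (_ : InnerProductSpace ℂ L) (_ : CompleteSpace L)
      (M : VonNeumannAlgebra L) (η : L) (j : Bool → (H →L[ℂ] H) → (L →L[ℂ] L)), IsAmalgam A B ξ M η j) ∧
    ∀ (L : Type) (_ : NormedAddCommGroup L) (_ : InnerProductSpace ℂ L) (_ : CompleteSpace L)
      (M : VonNeumannAlgebra L) (η : L) (j : Bool → (H →L[ℂ] H) → (L →L[ℂ] L)), IsAmalgam A B ξ M η j →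
      ¬ QWEP (M : Set (L →L[ℂ] L)) :=
  main

end Pool.Agent.Results.MP_f0269b_an.AmalgamNotQWEP
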